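import Mathlib
import Pool.Agent.X34.E.E20

/-! Pairs of consecutive primes with a common bounded gap between the consecutive terms of an arbitrary
sequence with polynomial gaps. -/

set_option autoImplicit false

open Finset Filter

namespace Pool.Agent.U518.GapPart

open Pool.Agent.H95R2.BG.LF
open Pool.Agent.X34.E

open Classical in
/-- the upper bound for the rough integers in the intervals of length at most `3 X` -/
theorem rough_upper3 {K : ℕ} (hK : 0 < K) (A B : Fin K → ℕ) (hadm : AdmissibleL A B) (κ θ : ℝ) (hκ : 0 < κ)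
    (hθ : 0 < θ) (hθ1 : θ ≤ 1) : ∃ C : ℝ, 0 < C ∧ ∀ᶠ X : ℕ in atTop, ∀ u H : ℕ, (X : ℝ) ^ θ ≤ H → H ≤ 3 * X →
      u ≤ 3 * X → ((((Ioc u (u + H)).filter (fun n => RoughL κ X A B n)).card : ℕ) : ℝ) ≤
        C * (H / Real.log X ^ K) := by
  obtain ⟨C, hC, h⟩ := rough_upper hK A B hadm (κ / 2) (θ / 2) (by positivity) (by positivity) (by linarith)
  have h3t : Tendsto (fun X : ℕ => 3 * X) atTop atTop :=
    tendsto_id.const_mul_atTop' (by norm_num : (0 : ℕ) < 3)
  refine ⟨C, hC, ?_⟩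
  filter_upwards [h3t.eventually h, eventually_ge_atTop 3] with X hX hX3 u H h1 h2 h3
  have hXr : (3 : ℝ) ≤ X := by exact_mod_cast hX3
  have hXpos : (0 : ℝ) < X := by linarith
  have h3X : ((3 * X : ℕ) : ℝ) ≤ (X : ℝ) ^ (2 : ℝ) := by
    push_cast
    rw [Real.rpow_two, sq]
    nlinarith
  have h3X0 : (0 : ℝ) ≤ ((3 * X : ℕ) : ℝ) := Nat.cast_nonneg _
  have key := hX u H (by
    calc ((3 * X : ℕ) : ℝ) ^ (θ / 2) ≤ ((X : ℝ) ^ (2 : ℝ)) ^ (θ / 2) :=
          Real.rpow_le_rpow h3X0 h3X (by positivity)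
      _ = (X : ℝ) ^ θ := by
          rw [← Real.rpow_mul hXpos.le]
          congr 1
          ring
      _ ≤ H := h1) h2 (by omega)
  have hlX : 0 < Real.log X := Real.log_pos (by linarith)
  have hl3 : Real.log X ≤ Real.log ((3 * X : ℕ) : ℝ) := by
    apply Real.log_le_log hXpos
    push_cast
    linarith
  calc ((((Ioc u (u + H)).filter (fun n => RoughL κ X A B n)).card : ℕ) : ℝ) ≤
      ((((Ioc u (u + H)).filter (fun n => RoughL (κ / 2) ((3 * X : ℕ) : ℝ) A B n)).card : ℕ) : ℝ) := by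
        rw [Nat.cast_le]
        apply card_le_card
        intro n hn
        rw [mem_filter] at hn ⊢
        refine ⟨hn.1, fun i p hp hpX => hn.2 i p hp (hpX.trans ?_)⟩
        calc ((3 * X : ℕ) : ℝ) ^ (κ / 2) ≤ ((X : ℝ) ^ (2 : ℝ)) ^ (κ / 2) :=
              Real.rpow_le_rpow h3X0 h3X (by positivity)
          _ = (X : ℝ) ^ κ := by
              rw [← Real.rpow_mul hXpos.le]
              congr 1
              ring
    _ ≤ C * (H / Real.log ((3 * X : ℕ) : ℝ) ^ K) := key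
    _ ≤ C * (H / Real.log X ^ K) := by
        apply mul_le_mul_of_nonneg_left _ hC.le
        exact div_le_div_of_nonneg_left (Nat.cast_nonneg _) (by positivity)
          (pow_le_pow_left₀ hlX.le hl3 K)

/-- the term of the sequence before a number -/
theorem locate (t : ℕ → ℕ) (ht : StrictMono t) (p : ℕ) (hp : t 0 ≤ p) : ∃ n : ℕ, t n ≤ p ∧ p < t (n + 1) := by
  classical
  have hex : ∃ n : ℕ, p < t (n + 1) := ⟨p, lt_of_lt_of_le (Nat.lt_succ_self p) (ht.id_le (p + 1))⟩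
  refine ⟨Nat.find hex, ?_, Nat.find_spec hex⟩
  rcases Nat.eq_zero_or_pos (Nat.find hex) with h0 | h0
  · rw [h0]; exact hp
  · have h1 := Nat.find_min hex (m := Nat.find hex - 1) (by omega)
    have h2 : Nat.find hex - 1 + 1 = Nat.find hex := by omega
    rw [h2] at h1
    exact not_lt.1 h1

theorem card_union_Ico (t : ℕ → ℕ) (ht : StrictMono t) (I : Finset ℕ) :
    (I.biUnion fun n => Ico (t n) (t (n + 1))).card = ∑ n ∈ I, (t (n + 1) - t n) := by
  rw [card_biUnion]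
  · simp
  · intro a _ b _ hab
    show Disjoint (Ico (t a) (t (a + 1))) (Ico (t b) (t (b + 1)))
    rw [disjoint_left]
    intro x hxa hxb
    rw [mem_Ico] at hxa hxb
    rcases lt_or_gt_of_ne hab with h | h
    · have := ht.monotone (show a + 1 ≤ b by omega)
      omega
    · have := ht.monotone (show b + 1 ≤ a by omega)
      omega

open Classical in
/-- a positive proportion of the numbers lies in the intervals between consecutive terms of the sequence `t`
with the right order of pairs of consecutive primes with one and the same difference -/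
theorem part_pos (hE : Eng) (θ : ℝ) (hθ : 0 < θ) (hθ1 : θ ≤ 1) (M a : ℕ) (hM0 : 0 < M) (ha : a.Coprime M)
    (G : Finset ℕ) (hG : G.card = 45) (hadm : ∀ p : ℕ, p.Prime → ¬ p ∣ M → ∃ r : ℕ, ∀ g ∈ G, ¬ p ∣ r + g) :
    ∃ c : ℝ, 0 < c ∧ ∀ t : ℕ → ℕ, StrictMono t →
      (∀ᶠ n : ℕ in atTop, (t n : ℝ) ^ θ ≤ (t (n + 1) : ℝ) - t n) →
      (∀ᶠ n : ℕ in atTop, t (n + 1) ≤ 2 * t n) →
      ∀ᶠ X : ℕ in atTop, ∃ g ∈ G, ∃ g' ∈ G, g < g' ∧ c * X ≤
        (Set.ncard {m : ℕ | m < 6 * X ∧ ∃ n : ℕ, t n ≤ m ∧ m < t (n + 1) ∧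
          c * (((t (n + 1) : ℝ) - t n) / Real.log (t n) ^ 45) ≤
            (Set.ncard {p : ℕ | t n < p ∧ p + (g' - g) * M < t (n + 1) ∧
              Follow M a ((g' - g) * M) p} : ℝ)} : ℝ) := by
  obtain ⟨κ, hκ, hgr⟩ := gaps_rough hE
  obtain ⟨c₀, hc₀, hlow⟩ := hgr M a hM0 ha G hG hadm
  obtain ⟨C, hC, hup⟩ := rough_upper3 (K := 45) (by norm_num) _ _ (adm_G M hM0 G hG hadm) κ (θ / 2) hκ
    (by positivity) (by linarith)
  obtain ⟨L, hL⟩ : ∃ L : ℕ, ∀ g ∈ G, g ≤ L :=
    ⟨G.sup id, fun g hg => Finset.le_sup (f := id) hg⟩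
  refine ⟨min (c₀ / 24 / 2 ^ 45) (c₀ / (4 * C)), by positivity, ?_⟩
  intro t ht hlen hdbl
  obtain ⟨N0, hN0⟩ := eventually_atTop.1 (hlen.and hdbl)
  have hsmall : ∀ᶠ X : ℕ in atTop, 12 * ((L * M : ℕ) + 2) / c₀ * Real.log X ^ 45 ≤ (X : ℝ) ^ (θ / 2) := by
    have h1 := Pool.Agent.TH464.PW.logpow_rpow 45 (12 * ((L * M : ℕ) + 2) / c₀) (θ / 2) (by positivity)
      (by positivity)
    exact h1
  have hreal : Tendsto (fun X : ℕ => (X : ℝ)) atTop atTop := tendsto_natCast_atTop_atTop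
  filter_upwards [hreal.eventually hlow, hup, hsmall,
    eventually_ge_atTop (t N0 + t 0 + 2 * (L * M) + 4)] with X h1 h2 h3 h4
  obtain ⟨g, hg, g', hg', hgg, h1⟩ := h1
  refine ⟨g, hg, g', hg', hgg, ?_⟩
  obtain ⟨h, hh⟩ : ∃ h : ℕ, h = (g' - g) * M := ⟨_, rfl⟩
  rw [← hh] at h1 ⊢
  have hhL : h ≤ L * M := by
    rw [hh]
    exact Nat.mul_le_mul_right _ ((Nat.sub_le _ _).trans (hL g' hg'))
  have hMg : M * g ≤ L * M := by
    rw [mul_comm]
    exact Nat.mul_le_mul_right _ (hL g hg)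
  have hX4 : (4 : ℝ) ≤ X := by exact_mod_cast (by omega : 4 ≤ X)
  have hX0 : (0 : ℝ) < X := by linarith
  have hlX : 0 < Real.log (X : ℝ) := Real.log_pos (by linarith)
  -- the indices
  set I : Finset ℕ := (range (3 * X)).filter (fun n => X < t (n + 1) ∧ t n < 3 * X) with hI
  have hIp : ∀ n ∈ I, X < 2 * t n ∧ t n < 3 * X ∧ t (n + 1) ≤ 2 * t n ∧
      (t n : ℝ) ^ θ ≤ (t (n + 1) : ℝ) - t n := by
    intro n hn
    rw [hI, mem_filter] at hn
    have e1 : N0 < n + 1 := ht.lt_iff_lt.1 (by omega)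
    obtain ⟨e2, e3⟩ := hN0 n (by omega)
    exact ⟨by omega, hn.2.2, e3, e2⟩
  have hsub6 : (I.biUnion fun n => Ico (t n) (t (n + 1))) ⊆ range (6 * X) := by
    intro m hm
    rw [mem_biUnion] at hm
    obtain ⟨n, hn, hm⟩ := hm
    obtain ⟨e1, e2, e3, e4⟩ := hIp n hn
    rw [mem_Ico] at hm
    rw [mem_range]
    omega
  have hlen6 : ∑ n ∈ I, ((t (n + 1) - t n : ℕ) : ℝ) ≤ 6 * X := by
    have e1 := card_le_card hsub6
    rw [card_union_Ico t ht, card_range] at e1
    exact_mod_cast e1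
  have hpowlen : ∀ n ∈ I, (X : ℝ) ^ (θ / 2) ≤ ((t (n + 1) - t n : ℕ) : ℝ) := by
    intro n hn
    obtain ⟨e1, e2, e3, e4⟩ := hIp n hn
    have e5 : t n ≤ t (n + 1) := ht.monotone (by omega)
    rw [Nat.cast_sub e5]
    refine le_trans ?_ e4
    have e6 : (X : ℝ) < 2 * t n := by exact_mod_cast e1
    have e7 : (X : ℝ) ≤ ((t n : ℕ) : ℝ) ^ (2 : ℝ) := by
      rw [Real.rpow_two]
      nlinarith
    calc (X : ℝ) ^ (θ / 2) ≤ (((t n : ℕ) : ℝ) ^ (2 : ℝ)) ^ (θ / 2) :=
          Real.rpow_le_rpow hX0.le e7 (by positivity)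
      _ = (t n : ℝ) ^ θ := by
          rw [← Real.rpow_mul (Nat.cast_nonneg _)]
          congr 1
          ring
  have hcardI : (I.card : ℝ) * (X : ℝ) ^ (θ / 2) ≤ 6 * X := by
    calc (I.card : ℝ) * (X : ℝ) ^ (θ / 2) = ∑ _n ∈ I, (X : ℝ) ^ (θ / 2) := by
          rw [sum_const, nsmul_eq_mul]
      _ ≤ ∑ n ∈ I, ((t (n + 1) - t n : ℕ) : ℝ) := sum_le_sum hpowlen
      _ ≤ 6 * X := hlen6
  -- the counts
  set F : ℕ → Finset ℕ := fun n => (Ico (t n) (t (n + 1))).filter (fun p => t n < p ∧ p + h < t (n + 1) ∧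
    Follow M a h p ∧ M * g ≤ p ∧ ∀ g'' ∈ G, ∀ q : ℕ, q.Prime → (q : ℝ) ≤ (X : ℝ) ^ κ → ¬ q ∣ p - M * g + M * g'')
    with hF
  have hcov : {n : ℕ | (X : ℝ) < n ∧ ((n + M * g + h : ℕ) : ℝ) < 3 * X ∧ Follow M a h (n + M * g) ∧
      ∀ g'' ∈ G, ∀ p : ℕ, p.Prime → (p : ℝ) ≤ (X : ℝ) ^ κ → ¬ p ∣ n + M * g''} ⊆
      ((I.biUnion (fun m => (F m).image (fun p => p - M * g)) ∪
        I.biUnion (fun m => (range (h + 1)).image (fun j => t (m + 1) - M * g - j))) ∪
        I.image (fun m => t m - M * g) : Finset ℕ) := by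
    rintro n ⟨hn1, hn2, hn3, hn4⟩
    have hn1' : X < n := by exact_mod_cast hn1
    have hn2' : n + M * g + h < 3 * X := by exact_mod_cast hn2
    obtain ⟨m, hm1, hm2⟩ := locate t ht (n + M * g) (by omega)
    have hmI : m ∈ I := by
      rw [hI, mem_filter, mem_range]
      have : m ≤ t m := ht.id_le m
      exact ⟨by omega, by omega, by omega⟩
    rw [coe_union, coe_union, Set.mem_union, Set.mem_union, mem_coe, mem_coe, mem_coe, mem_biUnion,
      mem_biUnion, mem_image]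
    by_cases hcr : n + M * g + h < t (m + 1)
    · by_cases hst : t m < n + M * g
      · left; left
        refine ⟨m, hmI, mem_image.2 ⟨n + M * g, ?_, by omega⟩⟩
        rw [hF, mem_filter, mem_Ico]
        refine ⟨⟨hm1, hm2⟩, hst, hcr, hn3, by omega, ?_⟩
        intro g'' hg'' q hq hqX
        have e1 : n + M * g - M * g = n := by omega
        rw [e1]
        exact hn4 g'' hg'' q hq hqX
      · right
        exact ⟨m, hmI, by omega⟩
    · left; right
      refine ⟨m, hmI, mem_image.2 ⟨t (m + 1) - M * g - n, ?_, ?_⟩⟩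
      · rw [mem_range]
        omega
      · omega
  have hfin1 : (Set.ncard {n : ℕ | (X : ℝ) < n ∧ ((n + M * g + h : ℕ) : ℝ) < 3 * X ∧ Follow M a h (n + M * g) ∧
      ∀ g'' ∈ G, ∀ p : ℕ, p.Prime → (p : ℝ) ≤ (X : ℝ) ^ κ → ¬ p ∣ n + M * g''} : ℝ) ≤
      ∑ m ∈ I, ((F m).card : ℝ) + I.card * (h + 2) := by
    have e1 := Set.ncard_le_ncard hcov (Finset.finite_toSet _)
    rw [Set.ncard_coe_finset] at e1
    have e2 : ((I.biUnion (fun m => (F m).image (fun p => p - M * g)) ∪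
        I.biUnion (fun m => (range (h + 1)).image (fun j => t (m + 1) - M * g - j))) ∪
        I.image (fun m => t m - M * g)).card ≤ ∑ m ∈ I, (F m).card + I.card * (h + 2) := by
      refine (card_union_le _ _).trans ?_
      have e3 : (I.biUnion (fun m => (F m).image (fun p => p - M * g)) ∪
        I.biUnion (fun m => (range (h + 1)).image (fun j => t (m + 1) - M * g - j))).card ≤
          ∑ m ∈ I, (F m).card + I.card * (h + 1) := by
        refine (card_union_le _ _).trans (Nat.add_le_add ?_ ?_)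
        · exact card_biUnion_le.trans (sum_le_sum fun m _ => card_image_le)
        · refine card_biUnion_le.trans ?_
          calc ∑ m ∈ I, ((range (h + 1)).image (fun j => t (m + 1) - M * g - j)).card ≤
              ∑ _m ∈ I, (h + 1) := sum_le_sum fun m _ => card_image_le.trans (card_range _).le
            _ = I.card * (h + 1) := by rw [sum_const, smul_eq_mul]
      have e4 : (I.image (fun m => t m - M * g)).card ≤ I.card := card_image_le
      calc _ ≤ (∑ m ∈ I, (F m).card + I.card * (h + 1)) + I.card := Nat.add_le_add e3 e4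
        _ = _ := by ring
    exact_mod_cast e1.trans e2
  have hupm : ∀ m ∈ I, ((F m).card : ℝ) ≤ C * (((t (m + 1) - t m : ℕ) : ℝ) / Real.log X ^ 45) := by
    intro m hm
    obtain ⟨e1, e2, e3, e4⟩ := hIp m hm
    have hinj : Set.InjOn (fun p => p - M * g) (F m : Set ℕ) := by
      intro p hp p' hp' he
      rw [mem_coe, hF, mem_filter] at hp hp'
      obtain ⟨-, -, -, -, h6, -⟩ := hp
      obtain ⟨-, -, -, -, h7, -⟩ := hp'
      simp only at he
      omega
    have e5 : (F m).card ≤ ((Ioc (t m - M * g) (t m - M * g + (t (m + 1) - t m))).filter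
        (fun n => RoughL κ X (fun _ : Fin 45 => 1) (fun i => M * G.orderEmbOfFin hG i) n)).card := by
      rw [← card_image_of_injOn hinj]
      apply card_le_card
      intro n hn
      obtain ⟨p, hp, rfl⟩ := mem_image.1 hn
      rw [hF, mem_filter, mem_Ico] at hp
      obtain ⟨⟨h5, h6⟩, h7, h8, h9, h10, h11⟩ := hp
      rw [mem_filter, mem_Ioc]
      exact ⟨⟨by omega, by omega⟩, rough_G M G hG κ X _ h11⟩
    refine le_trans ?_ (h2 (t m - M * g) (t (m + 1) - t m) (hpowlen m hm) (by omega) (by omega))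
    exact_mod_cast e5
  -- the total
  obtain ⟨Lam, hLam⟩ : ∃ Lam : ℝ, Lam = Real.log X ^ 45 := ⟨_, rfl⟩
  have hLam0 : 0 < Lam := by rw [hLam]; positivity
  have hbd : (I.card : ℝ) * (h + 2) ≤ c₀ / 2 * (X / Lam) := by
    have e1 : (h : ℝ) ≤ (L * M : ℕ) := by exact_mod_cast hhL
    have e2 : 0 < (X : ℝ) ^ (θ / 2) := by positivity
    rw [← hLam] at h3
    have e3 : 12 * ((L * M : ℕ) + 2) * Lam ≤ c₀ * (X : ℝ) ^ (θ / 2) := by
      have := mul_le_mul_of_nonneg_left h3 hc₀.le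
      calc 12 * (((L * M : ℕ) : ℝ) + 2) * Lam = c₀ * (12 * ((L * M : ℕ) + 2) / c₀ * Lam) := by field_simp
        _ ≤ c₀ * (X : ℝ) ^ (θ / 2) := this
    rw [← mul_div_assoc, le_div_iff₀ hLam0]
    have e4 : (I.card : ℝ) * (h + 2) * Lam * (12 * (X : ℝ) ^ (θ / 2)) ≤ c₀ / 2 * X * (12 * (X : ℝ) ^ (θ / 2)) := by
      calc (I.card : ℝ) * (h + 2) * Lam * (12 * (X : ℝ) ^ (θ / 2)) ≤
          (I.card : ℝ) * ((L * M : ℕ) + 2) * Lam * (12 * (X : ℝ) ^ (θ / 2)) := by gcongr
        _ = ((I.card : ℝ) * (X : ℝ) ^ (θ / 2)) * (12 * ((L * M : ℕ) + 2) * Lam) := by ring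
        _ ≤ (6 * X) * (c₀ * (X : ℝ) ^ (θ / 2)) :=
            mul_le_mul hcardI e3 (by positivity) (by positivity)
        _ = _ := by ring
    exact le_of_mul_le_mul_right e4 (by positivity)
  have hTlow : c₀ / 2 * (X / Lam) ≤ ∑ m ∈ I, ((F m).card : ℝ) := by
    have e1 : c₀ * X / Real.log X ^ 45 ≤ ∑ m ∈ I, ((F m).card : ℝ) + I.card * (h + 2) := by
      refine le_trans ?_ hfin1
      convert h1 using 2
    rw [← hLam] at e1
    have e3 : c₀ * X / Lam = c₀ / 2 * (X / Lam) + c₀ / 2 * (X / Lam) := by ring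
    linarith
  rw [← hLam] at hupm
  -- the rich intervals
  set Gd : Finset ℕ := I.filter (fun m => c₀ / 24 * (((t (m + 1) - t m : ℕ) : ℝ) / Lam) ≤ ((F m).card : ℝ))
    with hGd
  have hsplit : c₀ / 4 * (X / Lam) ≤ ∑ m ∈ Gd, ((F m).card : ℝ) := by
    rw [← sum_filter_add_sum_filter_not I
      (fun m => c₀ / 24 * (((t (m + 1) - t m : ℕ) : ℝ) / Lam) ≤ ((F m).card : ℝ))] at hTlow
    have e1 : ∑ m ∈ I.filter (fun m => ¬ c₀ / 24 * (((t (m + 1) - t m : ℕ) : ℝ) / Lam) ≤ ((F m).card : ℝ)),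
        ((F m).card : ℝ) ≤ c₀ / 4 * (X / Lam) := by
      calc _ ≤ ∑ m ∈ I.filter (fun m => ¬ c₀ / 24 * (((t (m + 1) - t m : ℕ) : ℝ) / Lam) ≤ ((F m).card : ℝ)),
            c₀ / 24 * (((t (m + 1) - t m : ℕ) : ℝ) / Lam) :=
            sum_le_sum fun m hm => (not_le.1 (mem_filter.1 hm).2).le
        _ ≤ ∑ m ∈ I, c₀ / 24 * (((t (m + 1) - t m : ℕ) : ℝ) / Lam) :=
            sum_le_sum_of_subset_of_nonneg (filter_subset _ _) fun _ _ _ => by positivity
        _ = c₀ / 24 / Lam * ∑ m ∈ I, ((t (m + 1) - t m : ℕ) : ℝ) := by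
            rw [mul_sum]
            exact sum_congr rfl fun m _ => by ring
        _ ≤ c₀ / 24 / Lam * (6 * X) := mul_le_mul_of_nonneg_left hlen6 (by positivity)
        _ = _ := by ring
    have e2 : c₀ / 2 * (X / Lam) = c₀ / 4 * (X / Lam) + c₀ / 4 * (X / Lam) := by ring
    linarith
  have hlenG : c₀ / (4 * C) * X ≤ ∑ m ∈ Gd, ((t (m + 1) - t m : ℕ) : ℝ) := by
    have e1 : c₀ / 4 * (X / Lam) ≤ C / Lam * ∑ m ∈ Gd, ((t (m + 1) - t m : ℕ) : ℝ) := by
      refine hsplit.trans ?_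
      rw [mul_sum]
      refine sum_le_sum fun m hm => (hupm m (mem_filter.1 hm).1).trans (le_of_eq ?_)
      ring
    have e2 : c₀ / (4 * C) * X * (C / Lam) ≤ (∑ m ∈ Gd, ((t (m + 1) - t m : ℕ) : ℝ)) * (C / Lam) := by
      calc c₀ / (4 * C) * X * (C / Lam) = c₀ / 4 * (X / Lam) := by field_simp
        _ ≤ _ := e1
        _ = _ := by ring
    exact le_of_mul_le_mul_right e2 (by positivity)
  calc min (c₀ / 24 / 2 ^ 45) (c₀ / (4 * C)) * (X : ℝ) ≤ c₀ / (4 * C) * X :=
        mul_le_mul_of_nonneg_right (min_le_right _ _) hX0.le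
    _ ≤ ∑ m ∈ Gd, ((t (m + 1) - t m : ℕ) : ℝ) := hlenG
    _ = (((Gd.biUnion fun n => Ico (t n) (t (n + 1))).card : ℕ) : ℝ) := by
        rw [card_union_Ico t ht]
        push_cast
        rfl
    _ ≤ _ := by
        rw [← Set.ncard_coe_finset, Nat.cast_le]
        refine Set.ncard_le_ncard (fun m hm => ?_) ((Set.finite_Iio (6 * X)).subset fun m hm => hm.1)
        rw [mem_coe, mem_biUnion] at hm
        obtain ⟨n, hn, hm⟩ := hm
        rw [hGd, mem_filter] at hn
        obtain ⟨hnI, hn⟩ := hn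
        obtain ⟨e1, e2, e3, e4⟩ := hIp n hnI
        rw [mem_Ico] at hm
        refine ⟨by omega, n, hm.1, hm.2, ?_⟩
        have e5 : t n ≤ t (n + 1) := ht.monotone (by omega)
        have e6 : (X : ℝ) < 2 * t n := by exact_mod_cast e1
        have e7 : (2 : ℝ) < t n := by linarith
        have e8 : Real.log X ≤ 2 * Real.log (t n) := by
          have : Real.log X ≤ Real.log ((t n : ℝ) ^ 2) := Real.log_le_log hX0 (by nlinarith)
          rwa [Real.log_pow] at this
        have e9 : 0 < Real.log (t n) := Real.log_pos (by linarith)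
        have e10 : Lam ≤ 2 ^ 45 * Real.log (t n) ^ 45 := by
          rw [hLam, ← mul_pow]
          exact pow_le_pow_left₀ hlX.le e8 45
        calc min (c₀ / 24 / 2 ^ 45) (c₀ / (4 * C)) * (((t (n + 1) : ℝ) - t n) / Real.log (t n) ^ 45) ≤
            c₀ / 24 / 2 ^ 45 * (((t (n + 1) : ℝ) - t n) / Real.log (t n) ^ 45) := by
              apply mul_le_mul_of_nonneg_right (min_le_left _ _)
              have : (t n : ℝ) ≤ t (n + 1) := by exact_mod_cast e5
              apply div_nonneg (by linarith) (by positivity)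
          _ = c₀ / 24 * (((t (n + 1) - t n : ℕ) : ℝ) / (2 ^ 45 * Real.log (t n) ^ 45)) := by
              rw [Nat.cast_sub e5]
              field_simp
          _ ≤ c₀ / 24 * (((t (n + 1) - t n : ℕ) : ℝ) / Lam) := by
              apply mul_le_mul_of_nonneg_left _ (by positivity)
              exact div_le_div_of_nonneg_left (Nat.cast_nonneg _) hLam0 e10
          _ ≤ ((F n).card : ℝ) := hn
          _ ≤ _ := by
              rw [← Set.ncard_coe_finset, Nat.cast_le]
              refine Set.ncard_le_ncard (fun p hp => ?_) ((Set.finite_Iio (t (n + 1))).subset fun p hp => ?_)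
              · rw [mem_coe, hF, mem_filter] at hp
                obtain ⟨-, h6, h7, h8, -⟩ := hp
                exact ⟨h6, h7, h8⟩
              · have := hp.2.1
                show p < t (n + 1)
                omega

end Pool.Agent.U518.GapPart
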